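import Pool.Agent.Q202.FA.Free

/-!
# Coding straight-line programs by elements of a free associative algebra
-/

set_option autoImplicit false

namespace Pool.Agent.Q202.FA

open Polynomial

universe u v w

section Defs

variable {A : Type v} [NonUnitalRing A]

/-- `τ` is an index: a left divisor of `T`, congruent to `a` modulo `a - 1`. -/
def Idx (a T τ : A) : Prop := (τ = T ∨ ∃ u, T = τ * u) ∧ ∃ u, τ + u = a + a * u

/-- `v` is the entry of the code `(b, h, s)` at the index `τ`: `s - b v ∈ (1 + τ h) A`. -/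
def Entry (b h s τ v : A) : Prop := ∃ r, s = b * v + r + τ * h * r

/-- `v = 0` or `v` and some `y j` generate the same right ideal. -/
def BaseEl {n : ℕ} (y : Fin n → A) (v : A) : Prop :=
  v = 0 ∨ ∃ j, (∀ u, ∃ u', v * u = y j * u') ∧ ∀ u, ∃ u', y j * u = v * u'

/-- the last clause of a straight line program -/
def Step (a b h s T τ v : A) : Prop :=
  ∃ τ' τ'' v' v'', Idx a T τ' ∧ Idx a T τ'' ∧ (∃ u, τ = τ' * u) ∧ (∃ u, τ = τ'' * u) ∧
    Entry b h s τ' v' ∧ Entry b h s τ'' v'' ∧ (v = v' + v'' ∨ v = v' * v'')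

/-- the code is a straight line program over `y` -/
def Cond {n : ℕ} (y : Fin n → A) (a b h s T : A) : Prop :=
  T ≠ 0 ∧ ∀ τ, Idx a T τ → ∀ v, Entry b h s τ v → BaseEl y v ∨ Step a b h s T τ v

/-- `w` is an entry of a straight line program over `y`. -/
def Gen {n : ℕ} (y : Fin n → A) (w : A) : Prop :=
  ∃ a b h s T, Cond y a b h s T ∧ ∃ τ, Idx a T τ ∧ Entry b h s τ w

end Defs

variable {P : Type u} [Field P] {X : Type w} [DecidableEq X] [Fintype X]
  {A : Type v} [NonUnitalRing A] [Module P A]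

/-- `e` identifies `A` with the augmentation ideal of the free algebra. -/
structure Emb (e : A →ₙₐ[P] U P X) : Prop where
  inj : Function.Injective e
  aug : ∀ a, ε (e a) = 0
  surj : ∀ f, ε f = 0 → ∃ a, e a = f

section Sound

variable {e : A →ₙₐ[P] U P X} [IsScalarTower P A A] [SMulCommClass P A A]

set_option linter.unusedSectionVars false

theorem Emb.eq_zero (he : Emb e) {a : A} : e a = 0 ↔ a = 0 := by
  constructor
  · intro h; apply he.inj; rw [h, map_zero]
  · rintro rfl; exact map_zero e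

theorem baseEl_mem (he : Emb e) [Nonempty X] {n : ℕ} {y : Fin n → A} {v : A} (h : BaseEl y v) :
    v ∈ NonUnitalAlgebra.adjoin P (Set.range y) := by
  rcases h with rfl | ⟨j, h1, h2⟩
  · exact zero_mem _
  by_cases hv : v = 0
  · rw [hv]; exact zero_mem _
  obtain ⟨i⟩ := ‹Nonempty X›
  obtain ⟨x, hx⟩ := he.surj (g P i) (ε_g i)
  obtain ⟨E, hE⟩ := h1 x
  obtain ⟨F, hF⟩ := h2 x
  have e1 : e v = e (y j) * R i (e E) := by
    have := congrArg (fun z => R i (e z)) hE
    simp only [map_mul, hx, R_mul_g, if_true] at this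
    rw [this, R_mul, he.aug, zero_smul, add_zero]
  have e2 : e (y j) = e v * R i (e F) := by
    have := congrArg (fun z => R i (e z)) hF
    simp only [map_mul, hx, R_mul_g, if_true] at this
    rw [this, R_mul, he.aug, zero_smul, add_zero]
  have hv' : e v ≠ 0 := fun h => hv (he.eq_zero.1 h)
  have e3 : R i (e F) * R i (e E) = 1 := by
    have : e v * (R i (e F) * R i (e E)) = e v * 1 := by
      rw [← mul_assoc, ← e2, ← e1, mul_one]
    exact mul_left_cancel₀ hv' this
  have hne : R i (e F) ≠ 0 ∧ R i (e E) ≠ 0 := by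
    constructor
    · intro h; rw [h, zero_mul] at e3; exact zero_ne_one e3
    · intro h; rw [h, mul_zero] at e3; exact zero_ne_one e3
  have e4 : deg (R i (e E)) = 0 := by
    have h3 := deg_mul hne.1 hne.2
    rw [e3] at h3
    have h4 : deg (1 : U P X) = 0 := by
      unfold deg
      rw [map_one, natDegree_one]
    omega
  have e5 := eq_algebraMap_of_deg e4
  have : v = ε (R i (e E)) • y j := by
    apply he.inj
    rw [map_smul, e1, Algebra.smul_def, Algebra.commutes, ← e5]
  rw [this]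
  exact SMulMemClass.smul_mem _ (NonUnitalAlgebra.subset_adjoin P ⟨j, rfl⟩)

theorem gen_mem (he : Emb e) [Nonempty X] {n : ℕ} {y : Fin n → A} {w : A} (h : Gen y w) :
    w ∈ NonUnitalAlgebra.adjoin P (Set.range y) := by
  obtain ⟨a, b, h, s, T, ⟨hT, hC⟩, τ, hτ, hw⟩ := h
  have key : ∀ N : ℕ, ∀ τ, Idx a T τ → deg (e τ) ≤ N → ∀ v, Entry b h s τ v →
      v ∈ NonUnitalAlgebra.adjoin P (Set.range y) := by
    intro N
    induction N using Nat.strong_induction_on with
    | _ N ih =>
      intro τ hτ hd v hv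
      rcases hC τ hτ v hv with hb | ⟨τ', τ'', v', v'', h1, h2, ⟨u', h3⟩, ⟨u'', h4⟩, h5, h6, h7⟩
      · exact baseEl_mem he hb
      · have hτ0 : τ ≠ 0 := by
          intro h0
          apply hT
          rcases hτ.1 with h | ⟨u, h⟩
          · rw [← h, h0]
          · rw [h, h0, zero_mul]
        have lt : ∀ t u : A, τ = t * u → deg (e t) < deg (e τ) := by
          intro t u htu
          have h0 : e τ = e t * e u := by rw [htu, map_mul]
          have hne : e τ ≠ 0 := fun h => hτ0 (he.eq_zero.1 h)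
          have hu : e u ≠ 0 := by intro h; rw [h, mul_zero] at h0; exact hne h0
          have ht : e t ≠ 0 := by intro h; rw [h, zero_mul] at h0; exact hne h0
          have := deg_mul ht hu
          have h1 := one_le_deg hu (he.aug u)
          rw [h0]
          omega
        have m1 := ih (deg (e τ')) (lt_of_lt_of_le (lt _ _ h3) hd) τ' h1 le_rfl v' h5
        have m2 := ih (deg (e τ'')) (lt_of_lt_of_le (lt _ _ h4) hd) τ'' h2 le_rfl v'' h6
        rcases h7 with rfl | rfl
        · exact add_mem m1 m2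
        · exact mul_mem m1 m2
  exact key _ τ hτ le_rfl w hw

end Sound

/-! ### Straight line programs -/

/-- a straight line program of length `K` over `y` -/
def Prog (P : Type u) [Field P] {A : Type v} [NonUnitalRing A] [Module P A] {n : ℕ}
    (y : Fin n → A) (K : ℕ) (f : ℕ → A) : Prop :=
  ∀ i, 1 ≤ i → i ≤ K → (∃ (c : P) (j : Fin n), f i = c • y j) ∨ f i = 0 ∨
    ∃ k l, 1 ≤ k ∧ k < i ∧ 1 ≤ l ∧ l < i ∧ (f i = f k + f l ∨ f i = f k * f l)

theorem prog_comb {n : ℕ} {y : Fin n → A} {K K' : ℕ} {f f' : ℕ → A} (hK : 1 ≤ K) (hK' : 1 ≤ K')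
    (h : Prog P y K f) (h' : Prog P y K' f') (z : A) (hz : z = f K + f' K' ∨ z = f K * f' K') :
    ∃ F : ℕ → A, Prog P y (K + K' + 1) F ∧ F (K + K' + 1) = z := by
  refine ⟨fun i => if i ≤ K then f i else if i ≤ K + K' then f' (i - K) else z, ?_, ?_⟩
  · intro i hi1 hi2
    by_cases c1 : i ≤ K
    · rcases h i hi1 c1 with ⟨c, j, hc⟩ | hc | ⟨k, l, a1, a2, a3, a4, a5⟩
      · left; refine ⟨c, j, ?_⟩; simp only [if_pos c1, hc]
      · right; left; simp only [if_pos c1, hc]
      · right; right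
        refine ⟨k, l, a1, a2, a3, a4, ?_⟩
        simp only [if_pos c1, if_pos (show k ≤ K by omega), if_pos (show l ≤ K by omega)]
        exact a5
    · by_cases c2 : i ≤ K + K'
      · rcases h' (i - K) (by omega) (by omega) with ⟨c, j, hc⟩ | hc | ⟨k, l, a1, a2, a3, a4, a5⟩
        · left; refine ⟨c, j, ?_⟩; simp only [if_neg c1, if_pos c2, hc]
        · right; left; simp only [if_neg c1, if_pos c2, hc]
        · right; right
          refine ⟨K + k, K + l, by omega, by omega, by omega, by omega, ?_⟩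
          simp only [if_neg c1, if_pos c2, if_neg (show ¬ K + k ≤ K by omega),
            if_neg (show ¬ K + l ≤ K by omega), if_pos (show K + k ≤ K + K' by omega),
            if_pos (show K + l ≤ K + K' by omega), Nat.add_sub_cancel_left]
          exact a5
      · right; right
        refine ⟨K, K + K', hK, by omega, by omega, by omega, ?_⟩
        simp only [if_neg c1, if_neg c2, if_pos (le_refl K), if_neg (show ¬ K + K' ≤ K by omega),
          if_pos (le_refl (K + K')), Nat.add_sub_cancel_left]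
        exact hz
  · simp only [if_neg (show ¬ K + K' + 1 ≤ K by omega),
      if_neg (show ¬ K + K' + 1 ≤ K + K' by omega)]

theorem exists_prog [IsScalarTower P A A] [SMulCommClass P A A] {n : ℕ} {y : Fin n → A} {w : A}
    (hw : w ∈ NonUnitalAlgebra.adjoin P (Set.range y)) :
    ∀ c : P, ∃ (K : ℕ) (f : ℕ → A), 1 ≤ K ∧ Prog P y K f ∧ f K = c • w := by
  induction hw using NonUnitalAlgebra.adjoin_induction with
  | mem z hz =>
    intro c
    obtain ⟨j, rfl⟩ := hz
    exact ⟨1, fun _ => c • y j, le_rfl, fun i _ _ => Or.inl ⟨c, j, rfl⟩, rfl⟩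
  | zero =>
    intro c
    exact ⟨1, fun _ => 0, le_rfl, fun i _ _ => Or.inr (Or.inl rfl), by rw [smul_zero]⟩
  | add a b _ _ ha hb =>
    intro c
    obtain ⟨K, f, h1, h2, h3⟩ := ha c
    obtain ⟨K', f', h1', h2', h3'⟩ := hb c
    obtain ⟨F, hF, hF2⟩ := prog_comb h1 h1' h2 h2' (c • (a + b))
      (Or.inl (by rw [h3, h3', smul_add]))
    exact ⟨_, F, by omega, hF, hF2⟩
  | mul a b _ _ ha hb =>
    intro c
    obtain ⟨K, f, h1, h2, h3⟩ := ha c
    obtain ⟨K', f', h1', h2', h3'⟩ := hb 1
    obtain ⟨F, hF, hF2⟩ := prog_comb h1 h1' h2 h2' (c • (a * b))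
      (Or.inr (by rw [h3, h3', one_smul, smul_mul_assoc]))
    exact ⟨_, F, by omega, hF, hF2⟩
  | smul r z _ hz =>
    intro c
    obtain ⟨K, f, h1, h2, h3⟩ := hz (c * r)
    exact ⟨K, f, h1, h2, by rw [h3, mul_smul]⟩

/-! ### Pairwise coprime moduli -/

theorem crt (P : Type u) [Field P] (K : ℕ) : ∃ H : P[X], H ≠ 0 ∧ H.coeff 0 = 0 ∧
    ∃ c : ℕ → P[X], ∀ i ∈ Finset.Icc 1 K, (1 + Polynomial.X ^ i * H) ∣ c i - 1 ∧
      ∀ j ∈ Finset.Icc 1 K, j ≠ i → (1 + Polynomial.X ^ j * H) ∣ c i := by
  classical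
  let H : P[X] := Polynomial.X * ∏ d ∈ Finset.range K, (Polynomial.X ^ (d + 1) - 1)
  have hH : H ≠ 0 := by
    refine mul_ne_zero X_ne_zero (Finset.prod_ne_zero_iff.2 fun d _ => ?_)
    intro h
    have := congrArg (Polynomial.eval 0) h
    simp at this
  have hH0 : H.coeff 0 = 0 := by
    simp [H]
  have cop' : ∀ i j, i < j → j ≤ K →
      IsCoprime (1 + Polynomial.X ^ i * H) (1 + Polynomial.X ^ j * H) := by
    intro i j hij hj
    obtain ⟨d, rfl⟩ : ∃ d, j = i + (d + 1) := ⟨j - i - 1, by omega⟩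
    obtain ⟨H', hH'⟩ : (Polynomial.X ^ (d + 1) - 1 : P[X]) ∣ H :=
      Dvd.dvd.mul_left (Finset.dvd_prod_of_mem (fun d => (Polynomial.X ^ (d + 1) - 1 : P[X]))
        (Finset.mem_range.2 (show d < K by omega))) _
    refine ⟨- (Polynomial.X ^ (i + (d + 1)) * H' * Polynomial.X ^ (d + 1)),
      1 + Polynomial.X ^ (i + (d + 1)) * H', ?_⟩
    have e1 : (Polynomial.X : P[X]) ^ (i + (d + 1)) = Polynomial.X ^ i * Polynomial.X ^ (d + 1) :=
      pow_add _ _ _
    rw [e1]
    generalize (Polynomial.X : P[X]) ^ (d + 1) = D at *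
    generalize (Polynomial.X : P[X]) ^ i = I at *
    generalize H = G at *
    subst hH'
    ring
  have cop : ∀ i ∈ Finset.Icc 1 K, ∀ j ∈ Finset.Icc 1 K, i ≠ j →
      IsCoprime (1 + Polynomial.X ^ i * H) (1 + Polynomial.X ^ j * H) := by
    intro i hi j hj hij
    rw [Finset.mem_Icc] at hi hj
    rcases lt_or_gt_of_ne hij with h | h
    · exact cop' i j h hj.2
    · exact (cop' j i h hi.2).symm
  refine ⟨H, hH, hH0, ?_⟩
  have : ∀ i : ℕ, ∃ c : P[X], i ∈ Finset.Icc 1 K → (1 + Polynomial.X ^ i * H) ∣ c - 1 ∧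
      ∀ j ∈ Finset.Icc 1 K, j ≠ i → (1 + Polynomial.X ^ j * H) ∣ c := by
    intro i
    by_cases hi : i ∈ Finset.Icc 1 K
    · have h1 : IsCoprime (1 + Polynomial.X ^ i * H)
          (∏ j ∈ (Finset.Icc 1 K).erase i, (1 + Polynomial.X ^ j * H)) := by
        refine IsCoprime.prod_right fun j hj => ?_
        rw [Finset.mem_erase] at hj
        exact cop i hi j hj.2 (Ne.symm hj.1)
      obtain ⟨p, q, hpq⟩ := h1
      refine ⟨q * ∏ j ∈ (Finset.Icc 1 K).erase i, (1 + Polynomial.X ^ j * H), fun _ => ⟨?_, ?_⟩⟩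
      · refine ⟨-p, ?_⟩
        linear_combination hpq
      · intro j hj hji
        exact Dvd.dvd.mul_left (Finset.dvd_prod_of_mem _ (Finset.mem_erase.2 ⟨hji, hj⟩)) _
    · exact ⟨0, fun h => absurd h hi⟩
  choose c hc using this
  exact ⟨c, fun i hi => hc i hi⟩

/-! ### Division by powers of a generator -/

omit [DecidableEq X] [Fintype X] in
theorem aeval_inj (i : X) : Function.Injective (aeval (g P i) : P[X] →ₐ[P] U P X) := by
  have h : (FreeAlgebra.lift P (fun _ : X => (Polynomial.X : P[X]))).comp (aeval (g P i)) =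
      AlgHom.id P P[X] := by
    apply Polynomial.algHom_ext
    simp
  intro p q hpq
  have h2 := fun r => DFunLike.congr_fun h r
  simp only [AlgHom.comp_apply, AlgHom.id_apply] at h2
  rw [← h2 p, hpq, h2 q]

theorem divpow (i : X) (K : ℕ) : ∀ τ u : U P X, τ * u = g P i ^ K →
    ∃ k ≤ K, ∃ c : P, τ = c • g P i ^ k := by
  induction K with
  | zero =>
    intro τ u h
    rw [pow_zero] at h
    have hne : τ ≠ 0 ∧ u ≠ 0 := by
      constructor
      · intro h'; rw [h', zero_mul] at h; exact zero_ne_one h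
      · intro h'; rw [h', mul_zero] at h; exact zero_ne_one h
    have h3 := deg_mul hne.1 hne.2
    rw [h] at h3
    have h4 : deg (1 : U P X) = 0 := by
      unfold deg
      rw [map_one, natDegree_one]
    refine ⟨0, le_rfl, ε τ, ?_⟩
    rw [pow_zero, ← Algebra.algebraMap_eq_smul_one]
    exact eq_algebraMap_of_deg (by omega)
  | succ K ih =>
    intro τ u h
    have hg : (g P i : U P X) ≠ 0 := FreeAlgebra.ι_ne_zero i
    have hne : τ ≠ 0 ∧ u ≠ 0 := by
      constructor
      · intro h'; rw [h', zero_mul] at h; exact pow_ne_zero _ hg h.symm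
      · intro h'; rw [h', mul_zero] at h; exact pow_ne_zero _ hg h.symm
    by_cases h0 : ε τ = 0
    · have hL : ∀ j, L j τ * u = if i = j then g P i ^ K else 0 := by
        intro j
        have := congrArg (L j) h
        rwa [L_mul, h0, zero_smul, add_zero, pow_succ', L_g_mul] at this
      obtain ⟨k, hk, c, hc⟩ := ih (L i τ) u (by rw [hL i, if_pos rfl])
      refine ⟨k + 1, by omega, c, ?_⟩
      rw [L_decomp τ, h0, map_zero, zero_add, Finset.sum_eq_single i]
      · rw [hc, pow_succ', mul_smul_comm]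
      · intro j _ hj
        have := hL j
        rw [if_neg (Ne.symm hj)] at this
        rcases mul_eq_zero.1 this with h1 | h1
        · rw [h1, mul_zero]
        · exact absurd h1 hne.2
      · simp
    · have h1 : ε u = 0 := by
        have := congrArg (ε : U P X →ₐ[P] P) h
        rw [map_mul, map_pow, ε_g, zero_pow (by omega)] at this
        rcases mul_eq_zero.1 this with h2 | h2
        · exact absurd h2 h0
        · exact h2
      have := congrArg (R i) h
      rw [R_mul, h1, zero_smul, add_zero, pow_succ, R_mul_g, if_pos rfl] at this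
      obtain ⟨k, hk, c, hc⟩ := ih τ (R i u) this
      exact ⟨k, by omega, c, hc⟩

theorem entry_unique {i j : X} (hij : i ≠ j) {H : U P X} (hH : H ≠ 0) (k : ℕ) (z ρ : U P X)
    (h : g P j * z = (1 + g P i ^ (k + 1) * H) * ρ) : ρ = 0 := by
  by_contra hρ
  have h1 := congrArg (L i) h
  rw [L_g_mul, if_neg (Ne.symm hij), add_mul, one_mul, map_add, pow_succ', mul_assoc, mul_assoc,
    L_g_mul, if_pos rfl] at h1
  have hg : (g P i : U P X) ≠ 0 := FreeAlgebra.ι_ne_zero i
  have h2 : g P i ^ k * (H * ρ) ≠ 0 := mul_ne_zero (pow_ne_zero _ hg) (mul_ne_zero hH hρ)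
  have h3 : L i ρ = - (g P i ^ k * (H * ρ)) := by
    rw [eq_neg_iff_add_eq_zero]; exact h1.symm
  have h4 : L i ρ ≠ 0 := by rw [h3]; exact neg_ne_zero.2 h2
  have h5 := deg_L_lt h4
  have h6 : deg (L i ρ) = deg (g P i ^ k * (H * ρ)) := by
    rw [h3]
    unfold deg
    rw [map_neg, natDegree_neg]
  rw [h6, deg_mul (pow_ne_zero _ hg) (mul_ne_zero hH hρ), deg_mul hH hρ] at h5
  omega

end Pool.Agent.Q202.FA
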