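import Pool.Agent.Q202.FA.Code

/-!
# Every element of a finitely generated subalgebra is an entry of a coded program
-/

set_option autoImplicit false
set_option linter.unusedSectionVars false

namespace Pool.Agent.Q202.FA

open Polynomial

universe u v w

variable {P : Type u} [Field P] {X : Type w} [DecidableEq X] [Fintype X]
  {A : Type v} [NonUnitalRing A] [Module P A] [IsScalarTower P A A] [SMulCommClass P A A]
  {e : A →ₙₐ[P] U P X}

theorem ε_aeval (i : X) (p : P[X]) : ε (aeval (g P i) p) = p.coeff 0 := by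
  have h : (ε : U P X →ₐ[P] P).comp (aeval (g P i)) = aeval (0 : P) := by
    apply Polynomial.algHom_ext
    simp
  have := DFunLike.congr_fun h p
  simp only [AlgHom.comp_apply] at this
  rw [this, Polynomial.coeff_zero_eq_aeval_zero]

theorem baseEl_smul {n : ℕ} (y : Fin n → A) (c : P) (j : Fin n) : BaseEl y (c • y j) := by
  by_cases hc : c = 0
  · left; rw [hc, zero_smul]
  · right
    refine ⟨j, fun u => ⟨c • u, ?_⟩, fun u => ⟨c⁻¹ • u, ?_⟩⟩
    · rw [smul_mul_assoc, mul_smul_comm]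
    · rw [smul_mul_assoc, mul_smul_comm, smul_smul, mul_inv_cancel₀ hc, one_smul]

theorem gen_of_mem (he : Emb e) {n : ℕ} {y : Fin n → A} {w : A} {i j : X} (hij : i ≠ j)
    (hw : w ∈ NonUnitalAlgebra.adjoin P (Set.range y)) : Gen y w := by
  obtain ⟨K, f, hK, hprog, hfK⟩ := exists_prog hw 1
  rw [one_smul] at hfK
  obtain ⟨H, hH, hH0, c, hc⟩ := crt P K
  obtain ⟨a, ha⟩ := he.surj (g P i) (ε_g i)
  obtain ⟨b, hb⟩ := he.surj (g P j) (ε_g j)
  obtain ⟨h, hh⟩ := he.surj (aeval (g P i) H) (by rw [ε_aeval, hH0])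
  obtain ⟨s, hs⟩ := he.surj (∑ k ∈ Finset.Icc 1 K, aeval (g P i) (c k) * (g P j * e (f k))) (by
    rw [map_sum]
    refine Finset.sum_eq_zero fun k _ => ?_
    rw [map_mul, map_mul, ε_g, zero_mul, mul_zero])
  have hpow : ∀ k, 1 ≤ k → ε (g P i ^ k) = 0 := by
    intro k hk
    rw [map_pow, ε_g, zero_pow (by omega)]
  obtain ⟨T, hT⟩ := he.surj (g P i ^ K) (hpow K hK)
  have hgi : (g P i : U P X) ≠ 0 := FreeAlgebra.ι_ne_zero i
  have hgj : (g P j : U P X) ≠ 0 := FreeAlgebra.ι_ne_zero j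
  -- the indices
  have idx : ∀ τ, Idx a T τ ↔ ∃ k ∈ Finset.Icc 1 K, e τ = g P i ^ k := by
    intro τ
    constructor
    · rintro ⟨h1, u, hu⟩
      have h2 : ∃ v : U P X, e τ * v = g P i ^ K := by
        rcases h1 with h1 | ⟨v, hv⟩
        · exact ⟨1, by rw [mul_one, h1, hT]⟩
        · exact ⟨e v, by rw [← map_mul, ← hv, hT]⟩
      obtain ⟨v, hv⟩ := h2
      obtain ⟨k, hk, d, hd⟩ := divpow i K _ _ hv
      have h3 := congrArg (fun z => ε₁ (e z)) hu
      simp only [map_add, map_mul, ha, ε₁_g, one_mul] at h3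
      have h4 := add_right_cancel h3
      rw [hd, map_smul, map_pow, ε₁_g, one_pow, smul_eq_mul, mul_one] at h4
      rw [h4, one_smul] at hd
      refine ⟨k, Finset.mem_Icc.2 ⟨?_, hk⟩, hd⟩
      by_contra hk0
      have : k = 0 := by omega
      subst this
      have h5 := he.aug τ
      rw [hd, pow_zero, map_one] at h5
      exact one_ne_zero h5
    · rintro ⟨k, hk, hτ⟩
      rw [Finset.mem_Icc] at hk
      refine ⟨?_, ?_⟩
      · by_cases hkK : k = K
        · left; apply he.inj; rw [hτ, hT, hkK]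
        · right
          obtain ⟨v, hv⟩ := he.surj (g P i ^ (K - k)) (hpow _ (by omega))
          refine ⟨v, ?_⟩
          apply he.inj
          rw [map_mul, hτ, hT, hv, ← pow_add]
          congr 1
          omega
      · obtain ⟨m, rfl⟩ : ∃ m, k = m + 1 := ⟨k - 1, by omega⟩
        obtain ⟨v, hv⟩ := he.surj (∑ l ∈ Finset.range m, g P i ^ (l + 1)) (by
          rw [map_sum]
          exact Finset.sum_eq_zero fun l _ => hpow _ (by omega))
        refine ⟨v, ?_⟩
        apply he.inj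
        rw [map_add, map_add, map_mul, hτ, hv, ha, Finset.mul_sum, add_comm,
          ← Finset.sum_range_succ (fun l => g P i ^ (l + 1)) m,
          Finset.sum_range_succ' (fun l => g P i ^ (l + 1)) m, add_comm]
        congr 1
        · rw [zero_add, pow_one]
        · exact Finset.sum_congr rfl fun l _ => pow_succ' _ _
  -- the entries
  have ent1 : ∀ k ∈ Finset.Icc 1 K, ∀ τ, e τ = g P i ^ k → ∃ r : A,
      e s = g P j * e (f k) + (1 + g P i ^ k * aeval (g P i) H) * e r := by
    intro k hk τ hτ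
    have : ∀ l, ∃ q : P[X], l ∈ Finset.Icc 1 K →
        c l = (if l = k then 1 else 0) + (1 + Polynomial.X ^ k * H) * q := by
      intro l
      by_cases hl : l ∈ Finset.Icc 1 K
      · by_cases hlk : l = k
        · obtain ⟨q, hq⟩ := (hc l hl).1
          refine ⟨q, fun _ => ?_⟩
          rw [if_pos hlk, ← hlk, ← hq]; ring
        · obtain ⟨q, hq⟩ := (hc l hl).2 k hk (Ne.symm hlk)
          refine ⟨q, fun _ => ?_⟩
          rw [if_neg hlk, zero_add, ← hq]
      · exact ⟨0, fun h => absurd h hl⟩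
    choose q hq using this
    obtain ⟨r, hr⟩ := he.surj (∑ l ∈ Finset.Icc 1 K, aeval (g P i) (q l) * (g P j * e (f l))) (by
      rw [map_sum]
      refine Finset.sum_eq_zero fun k _ => ?_
      rw [map_mul, map_mul, ε_g, zero_mul, mul_zero])
    refine ⟨r, ?_⟩
    rw [hs, hr, Finset.mul_sum]
    have h1 : ∀ l ∈ Finset.Icc 1 K, aeval (g P i) (c l) * (g P j * e (f l)) =
        (if l = k then g P j * e (f l) else 0) +
        (1 + g P i ^ k * aeval (g P i) H) * (aeval (g P i) (q l) * (g P j * e (f l))) := by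
      intro l hl
      rw [hq l hl, map_add, add_mul, map_mul, map_add, map_mul, map_pow, aeval_X, map_one,
        mul_assoc]
      congr 1
      split_ifs
      · rw [map_one, one_mul]
      · rw [map_zero, zero_mul]
    rw [Finset.sum_congr rfl h1, Finset.sum_add_distrib, Finset.sum_ite_eq' , if_pos hk]
  have ent : ∀ k ∈ Finset.Icc 1 K, ∀ τ, e τ = g P i ^ k → ∀ v, Entry b h s τ v ↔ v = f k := by
    intro k hk τ hτ v
    obtain ⟨r, hr⟩ := ent1 k hk τ hτ
    constructor
    · rintro ⟨r', hr'⟩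
      have h1 := congrArg e hr'
      rw [map_add, map_add, map_mul, map_mul, map_mul, hb, hτ, hh, hr] at h1
      obtain ⟨m, rfl⟩ : ∃ m, k = m + 1 := ⟨k - 1, by rw [Finset.mem_Icc] at hk; omega⟩
      have h2 : g P j * (e (f (m + 1)) - e v) =
          (1 + g P i ^ (m + 1) * aeval (g P i) H) * (e r' - e r) := by
        rw [mul_sub, mul_sub, sub_eq_sub_iff_add_eq_add, h1]
        noncomm_ring
      have hH' : (aeval (g P i) H : U P X) ≠ 0 := by
        intro h0
        apply hH
        apply aeval_inj i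
        rw [h0, map_zero]
      have h3 := entry_unique hij hH' m _ _ h2
      rw [h3, mul_zero] at h2
      rcases mul_eq_zero.1 h2 with h4 | h4
      · exact absurd h4 hgj
      · exact (he.inj (sub_eq_zero.1 h4)).symm
    · rintro rfl
      refine ⟨r, ?_⟩
      apply he.inj
      rw [map_add, map_add, map_mul, map_mul, map_mul, hb, hτ, hh, hr, add_mul, one_mul, add_assoc]
  refine ⟨a, b, h, s, T, ⟨?_, ?_⟩, T, ?_, ?_⟩
  · intro h0
    rw [h0, map_zero] at hT
    exact pow_ne_zero _ hgi hT.symm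
  · intro τ hτ v hv
    obtain ⟨k, hk, hτk⟩ := (idx τ).1 hτ
    have hk' := Finset.mem_Icc.1 hk
    rw [ent k hk τ hτk] at hv
    subst hv
    rcases hprog k hk'.1 hk'.2 with ⟨d, l, hd⟩ | hd | ⟨l, m, h1, h2, h3, h4, h5⟩
    · left; rw [hd]; exact baseEl_smul y d l
    · left; left; exact hd
    · right
      have mk : ∀ l, 1 ≤ l → l < k → ∃ τ', e τ' = g P i ^ l ∧ Idx a T τ' ∧ (∃ u, τ = τ' * u) ∧
          Entry b h s τ' (f l) := by
        intro l h1 h2
        obtain ⟨τ', hτ'⟩ := he.surj (g P i ^ l) (hpow l h1)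
        have hl : l ∈ Finset.Icc 1 K := Finset.mem_Icc.2 ⟨h1, by omega⟩
        refine ⟨τ', hτ', (idx τ').2 ⟨l, hl, hτ'⟩, ?_, (ent l hl τ' hτ' _).2 rfl⟩
        obtain ⟨u, hu⟩ := he.surj (g P i ^ (k - l)) (hpow _ (by omega))
        refine ⟨u, ?_⟩
        apply he.inj
        rw [map_mul, hτk, hτ', hu, ← pow_add]
        congr 1
        omega
      obtain ⟨τ', e1, e2, e3, e4⟩ := mk l h1 h2
      obtain ⟨τ'', e1', e2', e3', e4'⟩ := mk m h3 h4
      exact ⟨τ', τ'', f l, f m, e2, e2', e3, e3', e4, e4', h5⟩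
  · exact (idx T).2 ⟨K, Finset.mem_Icc.2 ⟨hK, le_rfl⟩, hT⟩
  · exact (ent K (Finset.mem_Icc.2 ⟨hK, le_rfl⟩) T hT _).2 hfK.symm

end Pool.Agent.Q202.FA
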