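import Pool.Agent.Q202.FA.Compl

/-!
# Surjective endomorphisms of free algebras of finite rank are injective; rank one
-/

set_option autoImplicit false
set_option linter.unusedSectionVars false

namespace Pool.Agent.Q202.FA

open Polynomial

universe u v w

variable {P : Type u} [Field P] {X : Type w} [DecidableEq X] [Fintype X]
  {A : Type v} [NonUnitalRing A] [Module P A] [IsScalarTower P A A] [SMulCommClass P A A]
  {e : A →ₙₐ[P] U P X}

/-- the homogeneous components lie in the powers of the space spanned by the generators -/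
theorem coeff_mem (f : U P X) : ∀ i : ℕ,
    (Φ f).coeff i ∈ (Submodule.span P (Set.range (g P : X → U P X))) ^ i := by
  induction f using FreeAlgebra.induction with
  | grade0 r =>
    intro i
    rw [Φ_algebraMap, coeff_C]
    split_ifs with h
    · subst h
      rw [pow_zero]
      exact Submodule.algebraMap_mem r
    · exact zero_mem _
  | grade1 j =>
    intro i
    rw [Φ_g, X_mul_C, coeff_C_mul_X]
    split_ifs with h1
    · subst h1
      rw [pow_one]
      exact Submodule.subset_span ⟨j, rfl⟩
    · exact zero_mem _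
  | mul a b ha hb =>
    intro i
    rw [map_mul, coeff_mul]
    refine Submodule.sum_mem _ fun p hp => ?_
    rw [← Finset.HasAntidiagonal.mem_antidiagonal.1 hp, pow_add]
    exact Submodule.mul_mem_mul (ha p.1) (hb p.2)
  | add a b ha hb =>
    intro i
    rw [map_add, coeff_add]
    exact add_mem (ha i) (hb i)

/-- an algebra homomorphism preserving the augmentation ideal preserves the order -/
theorem order_map (φ : U P X →ₐ[P] U P X) (hφ : ∀ j, ε (φ (g P j)) = 0) : ∀ (k : ℕ) (f : U P X),
    (∀ i < k, (Φ f).coeff i = 0) → ∀ i < k, (Φ (φ f)).coeff i = 0 := by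
  intro k
  induction k with
  | zero => intro f _ i hi; exact absurd hi (Nat.not_lt_zero _)
  | succ k ih =>
    intro f hf i hi
    have h0 : ε f = 0 := by
      have := hf 0 (by omega)
      rw [Φ_coeff_zero] at this
      exact (FaithfulSMul.algebraMap_injective P (U P X)) (by rw [this, map_zero])
    rw [L_decomp f, h0, map_zero, zero_add, map_sum, map_sum, finsetSum_coeff]
    refine Finset.sum_eq_zero fun j _ => ?_
    rw [map_mul, map_mul, coeff_mul]
    refine Finset.sum_eq_zero fun p hp => ?_
    rw [Finset.HasAntidiagonal.mem_antidiagonal] at hp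
    by_cases hp0 : p.1 = 0
    · rw [hp0, Φ_coeff_zero, hφ, map_zero, zero_mul]
    · rw [ih (L j f) (fun m hm => ?_) p.2 (by omega), mul_zero]
      rw [Φ_coeff_L, hf (m + 1) (by omega), map_zero]

/-- the lower homogeneous components -/
noncomputable def jet (e : A →ₙₐ[P] U P X) (k : ℕ) : A →ₗ[P] (Fin k → U P X) where
  toFun a i := (Φ (e a)).coeff i
  map_add' a b := by funext i; simp
  map_smul' c a := by funext i; simp

theorem jet_ker {k : ℕ} {a : A} : a ∈ LinearMap.ker (jet e k) ↔
    ∀ i < k, (Φ (e a)).coeff i = 0 := by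
  rw [LinearMap.mem_ker]
  constructor
  · intro h i hi
    exact congrFun h ⟨i, hi⟩
  · intro h
    funext i
    exact h i i.2

theorem jet_finite (e : A →ₙₐ[P] U P X) (k : ℕ) :
    Module.Finite P (A ⧸ LinearMap.ker (jet e k)) := by
  have hle : LinearMap.range (jet e k) ≤ Submodule.pi Set.univ
      (fun i : Fin k => (Submodule.span P (Set.range (g P : X → U P X))) ^ (i : ℕ)) := by
    rintro _ ⟨a, rfl⟩ i _
    exact coeff_mem _ _
  have hfg : (Submodule.pi Set.univ
      (fun i : Fin k => (Submodule.span P (Set.range (g P : X → U P X))) ^ (i : ℕ))).FG :=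
    Submodule.fg_pi fun i => (Submodule.fg_span (Set.finite_range _)).pow _
  have : Module.Finite P (Submodule.pi Set.univ
      (fun i : Fin k => (Submodule.span P (Set.range (g P : X → U P X))) ^ (i : ℕ))) :=
    Module.Finite.iff_fg.2 hfg
  have := Submodule.finiteDimensional_of_le hle
  exact Module.Finite.equiv (LinearMap.quotKerEquivRange (jet e k)).symm

/-- the generators generate -/
theorem adjoin_eq_top (he : Emb e) {x : X → A} (hx : ∀ j, e (x j) = g P j) :
    NonUnitalAlgebra.adjoin P (Set.range x) = ⊤ := by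
  have key : ∀ f : U P X, ∃ a ∈ NonUnitalAlgebra.adjoin P (Set.range x),
      e a = f - algebraMap P _ (ε f) := by
    intro f
    induction f using FreeAlgebra.induction with
    | grade0 r => exact ⟨0, zero_mem _, by rw [map_zero, ε_algebraMap, sub_self]⟩
    | grade1 j =>
      exact ⟨x j, NonUnitalAlgebra.subset_adjoin P ⟨j, rfl⟩, by
        rw [hx, ε_g, map_zero, sub_zero]⟩
    | mul a b ha hb =>
      obtain ⟨a', ha1, ha2⟩ := ha
      obtain ⟨b', hb1, hb2⟩ := hb
      refine ⟨a' * b' + ε a • b' + ε b • a', add_mem (add_mem (mul_mem ha1 hb1)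
        (SMulMemClass.smul_mem _ hb1)) (SMulMemClass.smul_mem _ ha1), ?_⟩
      rw [map_add, map_add, map_mul, map_smul, map_smul, ha2, hb2, map_mul, map_mul,
        Algebra.smul_def, Algebra.smul_def, mul_sub, mul_sub, mul_sub, sub_mul, sub_mul,
        ← Algebra.commutes (ε b) a, ← Algebra.commutes (ε b) (algebraMap P (U P X) (ε a))]
      abel
    | add a b ha hb =>
      obtain ⟨a', ha1, ha2⟩ := ha
      obtain ⟨b', hb1, hb2⟩ := hb
      refine ⟨a' + b', add_mem ha1 hb1, ?_⟩
      rw [map_add, ha2, hb2, map_add, map_add]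
      abel
  rw [eq_top_iff]
  intro a _
  obtain ⟨b, hb, hb2⟩ := key (e a)
  rw [he.aug, map_zero, sub_zero] at hb2
  rwa [← he.inj hb2]

/-- surjective endomorphisms are injective -/
theorem hopf (he : Emb e) {x : X → A} (hx : ∀ j, e (x j) = g P j) (σ : A →ₙₐ[P] A)
    (hσ : Function.Surjective σ) : Function.Injective σ := by
  let φ : U P X →ₐ[P] U P X := FreeAlgebra.lift P (fun j => e (σ (x j)))
  have hφg : ∀ j, φ (g P j) = e (σ (x j)) := fun j => by simp [φ]
  have hφ : ∀ a, e (σ a) = φ (e a) := by
    intro a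
    have ha : a ∈ NonUnitalAlgebra.adjoin P (Set.range x) := by
      rw [adjoin_eq_top he hx]; trivial
    induction ha using NonUnitalAlgebra.adjoin_induction with
    | mem z hz =>
      obtain ⟨j, rfl⟩ := hz
      rw [hx, hφg]
    | zero => rw [map_zero, map_zero, map_zero]
    | add a b _ _ ha hb => rw [map_add, map_add, map_add, map_add, ha, hb]
    | mul a b _ _ ha hb => rw [map_mul, map_mul, map_mul, map_mul, ha, hb]
    | smul r z _ hz => rw [map_smul, map_smul, map_smul, map_smul, hz]
  have hφ0 : ∀ j, ε (φ (g P j)) = 0 := fun j => by rw [hφg, he.aug]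
  have hpres : ∀ k, LinearMap.ker (jet e k) ≤
      (LinearMap.ker (jet e k)).comap (σ : A →ₗ[P] A) := by
    intro k a ha
    rw [jet_ker] at ha
    rw [Submodule.mem_comap, jet_ker]
    change ∀ i < k, (Φ (e (σ a))).coeff i = 0
    rw [hφ]
    exact order_map φ hφ0 k _ ha
  rw [injective_iff_map_eq_zero]
  intro a ha
  have hall : ∀ k, a ∈ LinearMap.ker (jet e k) := by
    intro k
    have := jet_finite e k
    have hs : Function.Surjective (Submodule.mapQ _ _ (σ : A →ₗ[P] A) (hpres k)) := by
      intro z
      obtain ⟨z, rfl⟩ := Submodule.Quotient.mk_surjective _ z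
      obtain ⟨y, hy⟩ := hσ z
      refine ⟨Submodule.Quotient.mk y, ?_⟩
      rw [Submodule.mapQ_apply]
      change Submodule.Quotient.mk (σ y) = _
      rw [hy]
    have hi := LinearMap.injective_iff_surjective.2 hs
    have : (Submodule.Quotient.mk a : A ⧸ LinearMap.ker (jet e k)) = 0 := by
      apply hi
      rw [Submodule.mapQ_apply, map_zero]
      change Submodule.Quotient.mk (σ a) = _
      rw [ha, Submodule.Quotient.mk_zero]
    exact (Submodule.Quotient.mk_eq_zero _).1 this
  rw [← he.eq_zero]
  apply Φ_inj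
  rw [map_zero]
  ext1 i
  rw [coeff_zero]
  exact jet_ker.1 (hall (i + 1)) i (by omega)

/-! ### Rank one -/

theorem rank_one_sound (he : Emb e) (i : X) (hX : ∀ j : X, j = i) {x : X → A}
    (hx : ∀ j, e (x j) = g P j) {y : A} (hy : ∀ u v : A, ∃ z, u * v = y * z) :
    x i ∈ NonUnitalAlgebra.adjoin P {y} := by
  obtain ⟨z, hz⟩ := hy (x i) (x i)
  have h1 := congrArg e hz
  rw [map_mul, map_mul, hx] at h1
  have hgi : (g P i : U P X) ≠ 0 := FreeAlgebra.ι_ne_zero i
  have hy0 : e y ≠ 0 := by
    intro h; rw [h, zero_mul] at h1; exact mul_ne_zero hgi hgi h1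
  have hz0 : e z ≠ 0 := by
    intro h; rw [h, mul_zero] at h1; exact mul_ne_zero hgi hgi h1
  have hdg : deg (g P i) = 1 := by
    unfold deg
    rw [Φ_g, X_mul_C, natDegree_C_mul_X]
    exact hgi
  have h2 := congrArg deg h1
  rw [deg_mul hgi hgi, deg_mul hy0 hz0, hdg] at h2
  have h3 := one_le_deg hy0 (he.aug y)
  have h4 := one_le_deg hz0 (he.aug z)
  have h5 : e y = g P i * L i (e y) := by
    have := L_decomp (e y)
    rw [he.aug, map_zero, zero_add, Finset.sum_eq_single i] at this
    · exact this
    · intro j _ hj; exact absurd (hX j) hj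
    · simp
  have h6 : L i (e y) ≠ 0 := by
    intro h; rw [h, mul_zero] at h5; exact hy0 h5
  have h7 := deg_L_lt h6
  have h8 := eq_algebraMap_of_deg (f := L i (e y)) (by omega)
  have h9 : ε (L i (e y)) ≠ 0 := by
    intro h; rw [h, map_zero] at h8; exact h6 h8
  have h10 : x i = (ε (L i (e y)))⁻¹ • y := by
    apply he.inj
    rw [map_smul, hx]
    nth_rw 2 [h5]
    nth_rw 2 [h8]
    rw [← Algebra.commutes, ← Algebra.smul_def, smul_smul, inv_mul_cancel₀ h9, one_smul]
  rw [h10]
  exact SMulMemClass.smul_mem _ (NonUnitalAlgebra.subset_adjoin P rfl)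

theorem rank_one_compl (he : Emb e) (i : X) (hX : ∀ j : X, j = i) {x : X → A}
    (hx : ∀ j, e (x j) = g P j) (u v : A) : ∃ z, u * v = x i * z := by
  obtain ⟨z, hz⟩ := he.surj (L i (e u) * e v) (by rw [map_mul, he.aug v, mul_zero])
  refine ⟨z, ?_⟩
  apply he.inj
  rw [map_mul, map_mul, hz, hx, ← mul_assoc]
  congr 1
  have := L_decomp (e u)
  rw [he.aug, map_zero, zero_add, Finset.sum_eq_single i] at this
  · exact this
  · intro j _ hj; exact absurd (hX j) hj
  · simp

end Pool.Agent.Q202.FA
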