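import Pool.Agent.Q202.FA.Logic
import Pool.Agent.Q202.FA.Hopf

/-!
# The generating tuples of a free algebra are first-order definable
-/

set_option autoImplicit false
set_option linter.unusedSectionVars false

namespace Pool.Agent.Q202.FA

open FirstOrder FirstOrder.Language
open Pool.Agent.Helper771.FreeNilp (AlgFn algLang)

universe u v w w'

section Formulas

variable {K : Type u} [Field K] {A : Type v} [NonUnitalRing A] [Module K A] {α : Type w}

theorem FDef.idx {a T τ : (α → A) → A} (ha : TDef K a) (hT : TDef K T) (hτ : TDef K τ) :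
    FDef K (fun v => Idx (a v) (T v) (τ v)) := by
  unfold Idx
  refine ((FDef.eq hτ hT).or (FDef.ex (P := fun v u => T v = τ v * u) ?_)).and
    (FDef.ex (P := fun v u => τ v + u = a v + a v * u) ?_)
  · exact FDef.eq (hT.comap Sum.inl) ((hτ.comap Sum.inl).mul (TDef.var _))
  · exact FDef.eq ((hτ.comap Sum.inl).add (TDef.var _))
      ((ha.comap Sum.inl).add ((ha.comap Sum.inl).mul (TDef.var _)))

theorem FDef.ldiv {t t' : (α → A) → A} (h : TDef K t) (h' : TDef K t') :
    FDef K (fun v => ∃ u, t v = t' v * u) :=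
  FDef.ex (P := fun v u => t v = t' v * u)
    (FDef.eq (h.comap Sum.inl) ((h'.comap Sum.inl).mul (TDef.var _)))

theorem FDef.entry {b h s τ z : (α → A) → A} (hb : TDef K b) (hh : TDef K h) (hs : TDef K s)
    (hτ : TDef K τ) (hz : TDef K z) :
    FDef K (fun v => Entry (b v) (h v) (s v) (τ v) (z v)) := by
  unfold Entry
  refine FDef.ex (P := fun v r => s v = b v * z v + r + τ v * h v * r) ?_
  exact FDef.eq (hs.comap Sum.inl) ((((hb.comap Sum.inl).mul (hz.comap Sum.inl)).add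
    (TDef.var _)).add (((hτ.comap Sum.inl).mul (hh.comap Sum.inl)).mul (TDef.var _)))

theorem FDef.baseEl {n : ℕ} {y : Fin n → (α → A) → A} {z : (α → A) → A}
    (hy : ∀ j, TDef K (y j)) (hz : TDef K z) :
    FDef K (fun v => BaseEl (fun j => y j v) (z v)) := by
  unfold BaseEl
  refine (FDef.eq hz TDef.zero).or (FDef.exFin fun j => ?_)
  refine FDef.and (FDef.all (P := fun v u => ∃ u', z v * u = y j v * u') ?_)
    (FDef.all (P := fun v u => ∃ u', y j v * u = z v * u') ?_)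
  · exact FDef.ldiv ((hz.comap Sum.inl).mul (TDef.var _)) ((hy j).comap Sum.inl)
  · exact FDef.ldiv (((hy j).comap Sum.inl).mul (TDef.var _)) (hz.comap Sum.inl)

theorem FDef.step {a b h s T τ z : (α → A) → A} (ha : TDef K a) (hb : TDef K b) (hh : TDef K h)
    (hs : TDef K s) (hT : TDef K T) (hτ : TDef K τ) (hz : TDef K z) :
    FDef K (fun v => Step (a v) (b v) (h v) (s v) (T v) (τ v) (z v)) := by
  unfold Step
  refine FDef.ex (P := fun v τ' => ∃ τ'' v' v'', Idx (a v) (T v) τ' ∧ Idx (a v) (T v) τ'' ∧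
    (∃ u, τ v = τ' * u) ∧ (∃ u, τ v = τ'' * u) ∧ Entry (b v) (h v) (s v) τ' v' ∧
    Entry (b v) (h v) (s v) τ'' v'' ∧ (z v = v' + v'' ∨ z v = v' * v'')) ?_
  refine FDef.ex (P := fun (v : α ⊕ Unit → A) τ'' => ∃ v' v'',
    Idx (a (fun i => v (Sum.inl i))) (T (fun i => v (Sum.inl i))) (v (Sum.inr ())) ∧
    Idx (a (fun i => v (Sum.inl i))) (T (fun i => v (Sum.inl i))) τ'' ∧
    (∃ u, τ (fun i => v (Sum.inl i)) = v (Sum.inr ()) * u) ∧
    (∃ u, τ (fun i => v (Sum.inl i)) = τ'' * u) ∧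
    Entry (b (fun i => v (Sum.inl i))) (h (fun i => v (Sum.inl i))) (s (fun i => v (Sum.inl i)))
      (v (Sum.inr ())) v' ∧
    Entry (b (fun i => v (Sum.inl i))) (h (fun i => v (Sum.inl i))) (s (fun i => v (Sum.inl i)))
      τ'' v'' ∧
    (z (fun i => v (Sum.inl i)) = v' + v'' ∨ z (fun i => v (Sum.inl i)) = v' * v'')) ?_
  refine FDef.ex (P := fun (v : (α ⊕ Unit) ⊕ Unit → A) v' => ∃ v'',
    Idx (a (fun i => v (Sum.inl (Sum.inl i)))) (T (fun i => v (Sum.inl (Sum.inl i))))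
      (v (Sum.inl (Sum.inr ()))) ∧
    Idx (a (fun i => v (Sum.inl (Sum.inl i)))) (T (fun i => v (Sum.inl (Sum.inl i))))
      (v (Sum.inr ())) ∧
    (∃ u, τ (fun i => v (Sum.inl (Sum.inl i))) = v (Sum.inl (Sum.inr ())) * u) ∧
    (∃ u, τ (fun i => v (Sum.inl (Sum.inl i))) = v (Sum.inr ()) * u) ∧
    Entry (b (fun i => v (Sum.inl (Sum.inl i)))) (h (fun i => v (Sum.inl (Sum.inl i))))
      (s (fun i => v (Sum.inl (Sum.inl i)))) (v (Sum.inl (Sum.inr ()))) v' ∧
    Entry (b (fun i => v (Sum.inl (Sum.inl i)))) (h (fun i => v (Sum.inl (Sum.inl i))))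
      (s (fun i => v (Sum.inl (Sum.inl i)))) (v (Sum.inr ())) v'' ∧
    (z (fun i => v (Sum.inl (Sum.inl i))) = v' + v'' ∨
      z (fun i => v (Sum.inl (Sum.inl i))) = v' * v'')) ?_
  refine FDef.ex (P := fun (v : ((α ⊕ Unit) ⊕ Unit) ⊕ Unit → A) v'' =>
    Idx (a (fun i => v (Sum.inl (Sum.inl (Sum.inl i)))))
      (T (fun i => v (Sum.inl (Sum.inl (Sum.inl i))))) (v (Sum.inl (Sum.inl (Sum.inr ())))) ∧
    Idx (a (fun i => v (Sum.inl (Sum.inl (Sum.inl i)))))
      (T (fun i => v (Sum.inl (Sum.inl (Sum.inl i))))) (v (Sum.inl (Sum.inr ()))) ∧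
    (∃ u, τ (fun i => v (Sum.inl (Sum.inl (Sum.inl i)))) = v (Sum.inl (Sum.inl (Sum.inr ()))) * u) ∧
    (∃ u, τ (fun i => v (Sum.inl (Sum.inl (Sum.inl i)))) = v (Sum.inl (Sum.inr ())) * u) ∧
    Entry (b (fun i => v (Sum.inl (Sum.inl (Sum.inl i)))))
      (h (fun i => v (Sum.inl (Sum.inl (Sum.inl i)))))
      (s (fun i => v (Sum.inl (Sum.inl (Sum.inl i))))) (v (Sum.inl (Sum.inl (Sum.inr ()))))
      (v (Sum.inr ())) ∧
    Entry (b (fun i => v (Sum.inl (Sum.inl (Sum.inl i)))))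
      (h (fun i => v (Sum.inl (Sum.inl (Sum.inl i)))))
      (s (fun i => v (Sum.inl (Sum.inl (Sum.inl i))))) (v (Sum.inl (Sum.inr ()))) v'' ∧
    (z (fun i => v (Sum.inl (Sum.inl (Sum.inl i)))) = v (Sum.inr ()) + v'' ∨
      z (fun i => v (Sum.inl (Sum.inl (Sum.inl i)))) = v (Sum.inr ()) * v'')) ?_
  have up : ∀ {p : (α → A) → A}, TDef K p →
      TDef K (fun v : (((α ⊕ Unit) ⊕ Unit) ⊕ Unit) ⊕ Unit → A =>
        p (fun i => v (Sum.inl (Sum.inl (Sum.inl (Sum.inl i)))))) := by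
    intro p hp
    exact hp.comap (fun i => Sum.inl (Sum.inl (Sum.inl (Sum.inl i))))
  refine (FDef.idx (up ha) (up hT) (TDef.var _)).and ?_
  refine (FDef.idx (up ha) (up hT) (TDef.var _)).and ?_
  refine (FDef.ldiv (up hτ) (TDef.var _)).and ?_
  refine (FDef.ldiv (up hτ) (TDef.var _)).and ?_
  refine (FDef.entry (up hb) (up hh) (up hs) (TDef.var _) (TDef.var _)).and ?_
  refine (FDef.entry (up hb) (up hh) (up hs) (TDef.var _) (TDef.var _)).and ?_
  exact (FDef.eq (up hz) ((TDef.var _).add (TDef.var _))).or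
    (FDef.eq (up hz) ((TDef.var _).mul (TDef.var _)))

theorem FDef.cond {n : ℕ} {y : Fin n → (α → A) → A} {a b h s T : (α → A) → A}
    (hy : ∀ j, TDef K (y j)) (ha : TDef K a) (hb : TDef K b) (hh : TDef K h)
    (hs : TDef K s) (hT : TDef K T) :
    FDef K (fun v => Cond (fun j => y j v) (a v) (b v) (h v) (s v) (T v)) := by
  unfold Cond
  refine (FDef.eq hT TDef.zero).not.and ?_
  refine FDef.all (P := fun v τ => Idx (a v) (T v) τ → ∀ z, Entry (b v) (h v) (s v) τ z →
    BaseEl (fun j => y j v) z ∨ Step (a v) (b v) (h v) (s v) (T v) τ z) ?_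
  refine FDef.imp (FDef.idx (ha.comap Sum.inl) (hT.comap Sum.inl) (TDef.var _)) ?_
  refine FDef.all (P := fun (v : α ⊕ Unit → A) z =>
    Entry (b (fun i => v (Sum.inl i))) (h (fun i => v (Sum.inl i))) (s (fun i => v (Sum.inl i)))
      (v (Sum.inr ())) z →
    BaseEl (fun j => y j (fun i => v (Sum.inl i))) z ∨
    Step (a (fun i => v (Sum.inl i))) (b (fun i => v (Sum.inl i))) (h (fun i => v (Sum.inl i)))
      (s (fun i => v (Sum.inl i))) (T (fun i => v (Sum.inl i))) (v (Sum.inr ())) z) ?_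
  have up : ∀ {p : (α → A) → A}, TDef K p →
      TDef K (fun v : (α ⊕ Unit) ⊕ Unit → A => p (fun i => v (Sum.inl (Sum.inl i)))) := by
    intro p hp
    exact hp.comap (fun i => Sum.inl (Sum.inl i))
  refine FDef.imp (FDef.entry (up hb) (up hh) (up hs) (TDef.var _) (TDef.var _)) ?_
  exact (FDef.baseEl (fun j => up (hy j)) (TDef.var _)).or
    (FDef.step (up ha) (up hb) (up hh) (up hs) (up hT) (TDef.var _) (TDef.var _))

theorem FDef.gen {n : ℕ} {y : Fin n → (α → A) → A} {z : (α → A) → A}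
    (hy : ∀ j, TDef K (y j)) (hz : TDef K z) :
    FDef K (fun v => Gen (fun j => y j v) (z v)) := by
  have h1 : FDef K (fun v : α → A => ∃ c : Fin 5 → A,
      Cond (fun j => y j v) (c 0) (c 1) (c 2) (c 3) (c 4) ∧
      ∃ τ, Idx (c 0) (c 4) τ ∧ Entry (c 1) (c 2) (c 3) τ (z v)) := by
    refine FDef.exFun (P := fun v (c : Fin 5 → A) =>
      Cond (fun j => y j v) (c 0) (c 1) (c 2) (c 3) (c 4) ∧
      ∃ τ, Idx (c 0) (c 4) τ ∧ Entry (c 1) (c 2) (c 3) τ (z v)) ?_
    refine FDef.and (FDef.cond (fun j => (hy j).comap Sum.inl) (TDef.var _) (TDef.var _)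
      (TDef.var _) (TDef.var _) (TDef.var _)) ?_
    refine FDef.ex (P := fun (v : α ⊕ Fin 5 → A) τ =>
      Idx (v (Sum.inr 0)) (v (Sum.inr 4)) τ ∧
      Entry (v (Sum.inr 1)) (v (Sum.inr 2)) (v (Sum.inr 3)) τ (z (fun i => v (Sum.inl i)))) ?_
    exact (FDef.idx (TDef.var _) (TDef.var _) (TDef.var _)).and
      (FDef.entry (TDef.var _) (TDef.var _) (TDef.var _) (TDef.var _)
        (hz.comap (fun i => Sum.inl (Sum.inl i))))
  refine h1.congr fun v => ?_
  constructor
  · rintro ⟨c, h⟩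
    exact ⟨c 0, c 1, c 2, c 3, c 4, h⟩
  · rintro ⟨a, b, h, s, T, H⟩
    exact ⟨![a, b, h, s, T], H⟩

/-- `y` generates (rank at least two) -/
theorem FDef.bas (n : ℕ) : FDef K (fun y : Fin n → A => ∀ z, Gen y z) := by
  refine FDef.all (P := fun (y : Fin n → A) z => Gen y z) ?_
  exact FDef.gen (y := fun j (v : Fin n ⊕ Unit → A) => v (Sum.inl j)) (fun j => TDef.var _)
    (TDef.var _)

/-- `y` generates (rank one) -/
theorem FDef.bas_one {n : ℕ} (i : Fin n) :
    FDef K (fun y : Fin n → A => ∀ u v, ∃ z, u * v = y i * z) := by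
  refine FDef.all (P := fun (y : Fin n → A) u => ∀ v, ∃ z, u * v = y i * z) ?_
  refine FDef.all (P := fun (y : Fin n ⊕ Unit → A) v =>
    ∃ z, y (Sum.inr ()) * v = y (Sum.inl i) * z) ?_
  exact FDef.ldiv ((TDef.var _).mul (TDef.var _)) (TDef.var _)

end Formulas

/-- In the augmentation ideal of a free algebra of finite rank, a formula without parameters
defines a set of generating tuples containing the free basis. -/
theorem exists_bas {P : Type u} [Field P] {n : ℕ} {A : Type v} [NonUnitalRing A] [Module P A]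
    [IsScalarTower P A A] [SMulCommClass P A A] {e : A →ₙₐ[P] U P (Fin n)} (he : Emb e)
    {x : Fin n → A} (hx : ∀ j, e (x j) = g P j) :
    ∃ B : (Fin n → A) → Prop, FDef P B ∧ B x ∧
      ∀ y, B y → NonUnitalAlgebra.adjoin P (Set.range y) = ⊤ := by
  have hgen := adjoin_eq_top he hx
  rcases Nat.lt_or_ge n 2 with hn | hn
  · rcases Nat.eq_zero_or_pos n with rfl | hn0
    · refine ⟨fun _ => True, FDef.true, trivial, fun y _ => ?_⟩
      have : y = x := Subsingleton.elim _ _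
      rw [this, hgen]
    · have hn1 : n = 1 := by omega
      subst hn1
      refine ⟨_, FDef.bas_one 0, rank_one_compl he 0 (fun j => Subsingleton.elim _ _) hx,
        fun y hy => ?_⟩
      have h1 := rank_one_sound he 0 (fun j => Subsingleton.elim _ _) hx hy
      rw [eq_top_iff, ← hgen]
      refine NonUnitalAlgebra.adjoin_le ?_
      rintro _ ⟨j, rfl⟩
      have h2 : j = 0 := Subsingleton.elim _ _
      subst h2
      refine NonUnitalAlgebra.adjoin_mono ?_ h1
      rintro _ rfl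
      exact ⟨0, rfl⟩
  · have h01 : (⟨0, by omega⟩ : Fin n) ≠ ⟨1, by omega⟩ := by
      intro h
      have := congrArg Fin.val h
      simp at this
    refine ⟨_, FDef.bas n, fun z => ?_, fun y hy => ?_⟩
    · exact gen_of_mem he h01 (by rw [hgen]; trivial)
    · rw [eq_top_iff]
      intro z _
      have : Nonempty (Fin n) := ⟨⟨0, by omega⟩⟩
      exact gen_mem he (hy z)

end Pool.Agent.Q202.FA
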