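import Mathlib

/-!
# The free associative algebra: Fox coordinates and degree
-/

set_option autoImplicit false

namespace Pool.Agent.Q202.FA

open Polynomial

universe u w

variable {P : Type u} [Field P] {X : Type w}

/-- The free unital algebra. -/
abbrev U (P : Type u) [Field P] (X : Type w) := FreeAlgebra P X

/-- the generators -/
noncomputable abbrev g (P : Type u) [Field P] {X : Type w} (i : X) : U P X := FreeAlgebra.ι P i

/-- the augmentation -/
noncomputable def ε : U P X →ₐ[P] P := FreeAlgebra.lift P (fun _ => (0 : P))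

/-- evaluation of all generators at `1` -/
noncomputable def ε₁ : U P X →ₐ[P] P := FreeAlgebra.lift P (fun _ => (1 : P))

@[simp] theorem ε_g (i : X) : ε (g P i) = 0 := by simp [ε]

@[simp] theorem ε₁_g (i : X) : ε₁ (g P i) = 1 := by simp [ε₁]

@[simp] theorem ε_algebraMap (c : P) : ε (algebraMap P (U P X) c) = c := by
  simp

section LR

variable [DecidableEq X]

/-- the triangular representation giving the left coordinates -/
noncomputable def ML (j : X) : U P X →ₐ[P] Matrix (Fin 2) (Fin 2) (U P X) :=
  FreeAlgebra.lift P (fun i => !![0, if i = j then 1 else 0; 0, g P i])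

/-- the triangular representation giving the right coordinates -/
noncomputable def MR (j : X) : U P X →ₐ[P] Matrix (Fin 2) (Fin 2) (U P X) :=
  FreeAlgebra.lift P (fun i => !![g P i, if i = j then 1 else 0; 0, 0])

theorem ML_g (j i : X) : ML j (g P i) = !![0, if i = j then 1 else 0; 0, g P i] := by
  simp [ML]

theorem MR_g (j i : X) : MR j (g P i) = !![g P i, if i = j then 1 else 0; 0, 0] := by
  simp [MR]

theorem ML_spec (j : X) (f : U P X) : ML j f 1 0 = 0 ∧ ML j f 1 1 = f ∧
    ML j f 0 0 = algebraMap P _ (ε f) := by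
  induction f using FreeAlgebra.induction with
  | grade0 r => simp [Matrix.algebraMap_eq_diagonal]
  | grade1 i => rw [ML_g]; simp
  | mul a b ha hb =>
    obtain ⟨a1, a2, a3⟩ := ha
    obtain ⟨b1, b2, b3⟩ := hb
    simp only [map_mul, Matrix.mul_apply, Fin.sum_univ_two]
    rw [a1, a2, a3, b1, b2, b3]
    simp
  | add a b ha hb =>
    obtain ⟨a1, a2, a3⟩ := ha
    obtain ⟨b1, b2, b3⟩ := hb
    simp only [map_add, Matrix.add_apply]
    rw [a1, a2, a3, b1, b2, b3]
    simp

theorem MR_spec (j : X) (f : U P X) : MR j f 1 0 = 0 ∧ MR j f 0 0 = f ∧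
    MR j f 1 1 = algebraMap P _ (ε f) := by
  induction f using FreeAlgebra.induction with
  | grade0 r => simp [Matrix.algebraMap_eq_diagonal]
  | grade1 i => rw [MR_g]; simp
  | mul a b ha hb =>
    obtain ⟨a1, a2, a3⟩ := ha
    obtain ⟨b1, b2, b3⟩ := hb
    simp only [map_mul, Matrix.mul_apply, Fin.sum_univ_two]
    rw [a1, a2, a3, b1, b2, b3]
    simp
  | add a b ha hb =>
    obtain ⟨a1, a2, a3⟩ := ha
    obtain ⟨b1, b2, b3⟩ := hb
    simp only [map_add, Matrix.add_apply]
    rw [a1, a2, a3, b1, b2, b3]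
    simp

/-- left coordinates: `f = ε f + ∑ j, x_j * L j f` -/
noncomputable def L (j : X) : U P X →ₗ[P] U P X where
  toFun f := ML j f 0 1
  map_add' a b := by simp
  map_smul' c a := by simp

/-- right coordinates: `f = ε f + ∑ j, R j f * x_j` -/
noncomputable def R (j : X) : U P X →ₗ[P] U P X where
  toFun f := MR j f 0 1
  map_add' a b := by simp
  map_smul' c a := by simp

theorem L_g (j i : X) : L j (g P i) = if i = j then 1 else 0 := by
  change ML j (g P i) 0 1 = _
  rw [ML_g]; simp

theorem R_g (j i : X) : R j (g P i) = if i = j then 1 else 0 := by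
  change MR j (g P i) 0 1 = _
  rw [MR_g]; simp

theorem L_mul (j : X) (a b : U P X) : L j (a * b) = L j a * b + ε a • L j b := by
  change ML j (a * b) 0 1 = ML j a 0 1 * b + ε a • ML j b 0 1
  rw [map_mul, Matrix.mul_apply, Fin.sum_univ_two, (ML_spec j a).2.2, (ML_spec j b).2.1,
    Algebra.smul_def, add_comm]

theorem R_mul (j : X) (a b : U P X) : R j (a * b) = a * R j b + ε b • R j a := by
  change MR j (a * b) 0 1 = a * MR j b 0 1 + ε b • MR j a 0 1
  rw [map_mul, Matrix.mul_apply, Fin.sum_univ_two, (MR_spec j a).2.1, (MR_spec j b).2.2,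
    Algebra.smul_def, Algebra.commutes]

theorem L_algebraMap (j : X) (c : P) : L j (algebraMap P (U P X) c) = 0 := by
  change ML j (algebraMap P (U P X) c) 0 1 = 0
  simp [Matrix.algebraMap_eq_diagonal]

theorem R_algebraMap (j : X) (c : P) : R j (algebraMap P (U P X) c) = 0 := by
  change MR j (algebraMap P (U P X) c) 0 1 = 0
  simp [Matrix.algebraMap_eq_diagonal]

theorem L_g_mul (j i : X) (a : U P X) : L j (g P i * a) = if i = j then a else 0 := by
  rw [L_mul, L_g, ε_g, zero_smul, add_zero]
  split_ifs <;> simp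

theorem R_mul_g (j i : X) (a : U P X) : R j (a * g P i) = if i = j then a else 0 := by
  rw [R_mul, R_g, ε_g, zero_smul, add_zero]
  split_ifs <;> simp

variable [Fintype X]

theorem L_decomp (f : U P X) : f = algebraMap P _ (ε f) + ∑ j, g P j * L j f := by
  induction f using FreeAlgebra.induction with
  | grade0 r => simp [L_algebraMap]
  | grade1 i =>
    rw [ε_g, map_zero, zero_add]
    rw [Finset.sum_eq_single i]
    · rw [L_g]; simp
    · intro j _ hj
      rw [L_g, if_neg (Ne.symm hj), mul_zero]
    · simp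
  | mul a b ha hb =>
    have h1 : ∀ j, g P j * L j (a * b) = (g P j * L j a) * b + ε a • (g P j * L j b) := by
      intro j
      rw [L_mul, mul_add, mul_assoc, mul_smul_comm]
    simp_rw [h1]
    rw [Finset.sum_add_distrib, ← Finset.sum_mul, ← Finset.smul_sum]
    have e1 : ∑ j, g P j * L j a = a - algebraMap P _ (ε a) := by
      rw [eq_sub_iff_add_eq, add_comm]; exact ha.symm
    have e2 : ∑ j, g P j * L j b = b - algebraMap P _ (ε b) := by
      rw [eq_sub_iff_add_eq, add_comm]; exact hb.symm
    rw [e1, e2, map_mul, map_mul, Algebra.smul_def]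
    noncomm_ring
  | add a b ha hb =>
    have h1 : ∀ j, g P j * L j (a + b) = (g P j * L j a) + (g P j * L j b) := by
      intro j
      rw [map_add, mul_add]
    simp_rw [h1]
    rw [Finset.sum_add_distrib]
    nth_rw 1 [ha]
    nth_rw 1 [hb]
    rw [map_add, map_add]
    abel

theorem R_decomp (f : U P X) : f = algebraMap P _ (ε f) + ∑ j, R j f * g P j := by
  induction f using FreeAlgebra.induction with
  | grade0 r => simp [R_algebraMap]
  | grade1 i =>
    rw [ε_g, map_zero, zero_add]
    rw [Finset.sum_eq_single i]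
    · rw [R_g]; simp
    · intro j _ hj
      rw [R_g, if_neg (Ne.symm hj), zero_mul]
    · simp
  | mul a b ha hb =>
    have h1 : ∀ j, R j (a * b) * g P j = a * (R j b * g P j) + ε b • (R j a * g P j) := by
      intro j
      rw [R_mul, add_mul, mul_assoc, smul_mul_assoc]
    simp_rw [h1]
    rw [Finset.sum_add_distrib, ← Finset.mul_sum, ← Finset.smul_sum]
    have e1 : ∑ j, R j a * g P j = a - algebraMap P _ (ε a) := by
      rw [eq_sub_iff_add_eq, add_comm]; exact ha.symm
    have e2 : ∑ j, R j b * g P j = b - algebraMap P _ (ε b) := by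
      rw [eq_sub_iff_add_eq, add_comm]; exact hb.symm
    rw [e1, e2, map_mul, map_mul, Algebra.smul_def, mul_sub, mul_sub,
      ← Algebra.commutes (ε b) a, ← Algebra.commutes (ε b) (algebraMap P (U P X) (ε a))]
    abel
  | add a b ha hb =>
    have h1 : ∀ j, R j (a + b) * g P j = (R j a * g P j) + (R j b * g P j) := by
      intro j
      rw [map_add, add_mul]
    simp_rw [h1]
    rw [Finset.sum_add_distrib]
    nth_rw 1 [ha]
    nth_rw 1 [hb]
    rw [map_add, map_add]
    abel

theorem L_inj_sum (i : X) (h : X → U P X) : L i (∑ j, g P j * h j) = h i := by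
  rw [map_sum]
  simp_rw [L_g_mul]
  simp

theorem R_inj_sum (i : X) (h : X → U P X) : R i (∑ j, h j * g P j) = h i := by
  rw [map_sum]
  simp_rw [R_mul_g]
  simp

end LR

/-! ### Degree -/

/-- the grading: `x_i ↦ t x_i` -/
noncomputable def Φ : U P X →ₐ[P] (U P X)[X] :=
  FreeAlgebra.lift P (fun i => Polynomial.X * C (g P i))

theorem Φ_g (i : X) : Φ (g P i) = Polynomial.X * C (g P i) := by simp [Φ]

theorem Φ_algebraMap (c : P) : Φ (algebraMap P (U P X) c) = C (algebraMap P _ c) := by
  rw [AlgHom.commutes]; rfl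

/-- evaluation at `t = 1` -/
theorem Φ_inj : Function.Injective (Φ : U P X →ₐ[P] (U P X)[X]) := by
  have key : ∀ f : U P X, eval₂ (RingHom.id (U P X)) 1 (Φ f) = f := by
    intro f
    induction f using FreeAlgebra.induction with
    | grade0 r => rw [Φ_algebraMap, eval₂_C]; rfl
    | grade1 i => rw [Φ_g, X_mul_C, eval₂_mul_X, eval₂_C]; simp
    | mul a b ha hb =>
      rw [map_mul, eval₂_mul_noncomm _ _ (fun k => Commute.one_right _), ha, hb]
    | add a b ha hb => rw [map_add, eval₂_add, ha, hb]
  intro a b hab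
  rw [← key a, ← key b, hab]

theorem Φ_coeff_zero (f : U P X) : (Φ f).coeff 0 = algebraMap P _ (ε f) := by
  induction f using FreeAlgebra.induction with
  | grade0 r => rw [Φ_algebraMap, coeff_C_zero, ε_algebraMap]
  | grade1 i => rw [Φ_g, coeff_X_mul_zero, ε_g, map_zero]
  | mul a b ha hb => rw [map_mul, mul_coeff_zero, ha, hb, map_mul, map_mul]
  | add a b ha hb => rw [map_add, coeff_add, ha, hb, map_add, map_add]

/-- the degree -/
noncomputable def deg (f : U P X) : ℕ := (Φ f).natDegree

theorem deg_mul {a b : U P X} (ha : a ≠ 0) (hb : b ≠ 0) : deg (a * b) = deg a + deg b := by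
  unfold deg
  rw [map_mul, natDegree_mul]
  · exact fun h => ha (Φ_inj (by rw [h, map_zero]))
  · exact fun h => hb (Φ_inj (by rw [h, map_zero]))

theorem eq_algebraMap_of_deg {f : U P X} (h : deg f = 0) : f = algebraMap P _ (ε f) := by
  apply Φ_inj
  rw [Φ_algebraMap, ← Φ_coeff_zero]
  exact Polynomial.eq_C_of_natDegree_eq_zero h

theorem one_le_deg {f : U P X} (h : f ≠ 0) (h0 : ε f = 0) : 1 ≤ deg f := by
  by_contra hc
  apply h
  have := eq_algebraMap_of_deg (f := f) (by omega)
  rw [this, h0, map_zero]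

theorem Φ_coeff_succ [DecidableEq X] [Fintype X] (f : U P X) (k : ℕ) :
    (Φ f).coeff (k + 1) = ∑ j, g P j * (Φ (L j f)).coeff k := by
  conv_lhs => rw [L_decomp f]
  rw [map_add, Φ_algebraMap, coeff_add, coeff_C_succ, zero_add, map_sum, finsetSum_coeff]
  apply Finset.sum_congr rfl
  intro j _
  rw [map_mul, Φ_g, mul_assoc, coeff_X_mul, coeff_C_mul]

theorem Φ_coeff_L [DecidableEq X] [Fintype X] (f : U P X) (k : ℕ) (j : X) :
    (Φ (L j f)).coeff k = L j ((Φ f).coeff (k + 1)) := by
  rw [Φ_coeff_succ, L_inj_sum]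

theorem deg_L_lt [DecidableEq X] [Fintype X] {f : U P X} {j : X} (h : L j f ≠ 0) :
    deg (L j f) < deg f := by
  have h1 : (Φ (L j f)).coeff (deg (L j f)) ≠ 0 := by
    intro h2
    apply h
    apply Φ_inj
    rw [map_zero]
    exact Polynomial.leadingCoeff_eq_zero.1 h2
  rw [Φ_coeff_L] at h1
  have h2 : (Φ f).coeff (deg (L j f) + 1) ≠ 0 := by
    intro h3
    rw [h3, map_zero] at h1
    exact h1 rfl
  exact Polynomial.le_natDegree_of_ne_zero h2

end Pool.Agent.Q202.FA
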