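import Pool.Agent.Helper771.FreeNilp

/-!
# Definability in algebras over a field (non-unital, one unary symbol for every scalar)
-/

set_option autoImplicit false

namespace Pool.Agent.Q202.FA

open FirstOrder FirstOrder.Language
open Pool.Agent.Helper771.FreeNilp (AlgFn algLang)

universe u v w w'

variable (K : Type u) [Field K] {A : Type v} [NonUnitalRing A] [Module K A]
variable {α : Type w} {β : Type w'}

/-- `p` is given by a term. -/
def TDef (p : (α → A) → A) : Prop :=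
  ∃ t : (algLang K).Term α, ∀ v : α → A, t.realize v = p v

/-- `P` is given by a formula. -/
def FDef (P : (α → A) → Prop) : Prop :=
  ∃ φ : (algLang K).Formula α, ∀ v : α → A, φ.Realize v ↔ P v

variable {K}

theorem TDef.var (i : α) : TDef K (fun v : α → A => v i) :=
  ⟨Term.var i, fun _ => rfl⟩

theorem TDef.zero : TDef K (fun _ : α → A => (0 : A)) :=
  ⟨Language.Term.func (l := 0) (AlgFn.zero : AlgFn K 0) ![], fun _ => rfl⟩

theorem TDef.add {p q : (α → A) → A} (hp : TDef K p) (hq : TDef K q) :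
    TDef K (fun v => p v + q v) := by
  obtain ⟨s, hs⟩ := hp
  obtain ⟨t, ht⟩ := hq
  refine ⟨Language.Term.func (l := 2) (AlgFn.add : AlgFn K 2) ![s, t], fun v => ?_⟩
  change s.realize v + t.realize v = p v + q v
  rw [hs, ht]

theorem TDef.mul {p q : (α → A) → A} (hp : TDef K p) (hq : TDef K q) :
    TDef K (fun v => p v * q v) := by
  obtain ⟨s, hs⟩ := hp
  obtain ⟨t, ht⟩ := hq
  refine ⟨Language.Term.func (l := 2) (AlgFn.mul : AlgFn K 2) ![s, t], fun v => ?_⟩
  change s.realize v * t.realize v = p v * q v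
  rw [hs, ht]

theorem TDef.smul (c : K) {p : (α → A) → A} (hp : TDef K p) :
    TDef K (fun v => c • p v) := by
  obtain ⟨s, hs⟩ := hp
  refine ⟨Language.Term.func (l := 1) (AlgFn.smul c : AlgFn K 1) ![s], fun v => ?_⟩
  change c • s.realize v = c • p v
  rw [hs]

theorem FDef.eq {p q : (α → A) → A} (hp : TDef K p) (hq : TDef K q) :
    FDef K (fun v => p v = q v) := by
  obtain ⟨s, hs⟩ := hp
  obtain ⟨t, ht⟩ := hq
  exact ⟨s.equal t, fun v => by rw [Formula.realize_equal, hs, ht]⟩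

theorem FDef.congr {P Q : (α → A) → Prop} (hP : FDef K P) (h : ∀ v, P v ↔ Q v) : FDef K Q := by
  obtain ⟨φ, hφ⟩ := hP
  exact ⟨φ, fun v => (hφ v).trans (h v)⟩

theorem FDef.true : FDef K (fun _ : α → A => True) :=
  ⟨⊤, fun v => by simp⟩

theorem FDef.not {P : (α → A) → Prop} (hP : FDef K P) : FDef K (fun v => ¬ P v) := by
  obtain ⟨φ, hφ⟩ := hP
  exact ⟨∼φ, fun v => by rw [Formula.realize_not, hφ]⟩

theorem FDef.and {P Q : (α → A) → Prop} (hP : FDef K P) (hQ : FDef K Q) :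
    FDef K (fun v => P v ∧ Q v) := by
  obtain ⟨φ, hφ⟩ := hP
  obtain ⟨ψ, hψ⟩ := hQ
  exact ⟨φ ⊓ ψ, fun v => by rw [Formula.realize_inf, hφ, hψ]⟩

theorem FDef.or {P Q : (α → A) → Prop} (hP : FDef K P) (hQ : FDef K Q) :
    FDef K (fun v => P v ∨ Q v) := by
  obtain ⟨φ, hφ⟩ := hP
  obtain ⟨ψ, hψ⟩ := hQ
  exact ⟨φ ⊔ ψ, fun v => by rw [Formula.realize_sup, hφ, hψ]⟩

theorem FDef.imp {P Q : (α → A) → Prop} (hP : FDef K P) (hQ : FDef K Q) :
    FDef K (fun v => P v → Q v) := by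
  obtain ⟨φ, hφ⟩ := hP
  obtain ⟨ψ, hψ⟩ := hQ
  exact ⟨φ.imp ψ, fun v => by rw [Formula.realize_imp, hφ, hψ]⟩

theorem FDef.allFin {ι : Type} [Finite ι] {P : ι → (α → A) → Prop} (hP : ∀ i, FDef K (P i)) :
    FDef K (fun v => ∀ i, P i v) := by
  choose φ hφ using hP
  exact ⟨Formula.iInf φ, fun v => by simp [Formula.realize_iInf, hφ]⟩

theorem FDef.exFin {ι : Type} [Finite ι] {P : ι → (α → A) → Prop} (hP : ∀ i, FDef K (P i)) :
    FDef K (fun v => ∃ i, P i v) := by
  choose φ hφ using hP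
  exact ⟨Formula.iSup φ, fun v => by simp [Formula.realize_iSup, hφ]⟩

theorem FDef.exFun [Finite β] {P : (α → A) → (β → A) → Prop}
    (h : FDef K (fun w : α ⊕ β → A => P (fun a => w (Sum.inl a)) (fun b => w (Sum.inr b)))) :
    FDef K (fun v => ∃ u : β → A, P v u) := by
  obtain ⟨φ, hφ⟩ := h
  exact ⟨φ.iExs β, fun v => by simp [Formula.realize_iExs, hφ]⟩

theorem FDef.ex {P : (α → A) → A → Prop}
    (h : FDef K (fun w : α ⊕ Unit → A => P (fun a => w (Sum.inl a)) (w (Sum.inr ())))) :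
    FDef K (fun v => ∃ u : A, P v u) := by
  have := FDef.exFun (P := fun v (u : Unit → A) => P v (u ())) h
  refine this.congr fun v => ⟨fun ⟨u, hu⟩ => ⟨u (), hu⟩, fun ⟨u, hu⟩ => ⟨fun _ => u, hu⟩⟩

theorem FDef.all {P : (α → A) → A → Prop}
    (h : FDef K (fun w : α ⊕ Unit → A => P (fun a => w (Sum.inl a)) (w (Sum.inr ())))) :
    FDef K (fun v => ∀ u : A, P v u) := by
  have h1 : FDef K (fun w : α ⊕ Unit → A => ¬ P (fun a => w (Sum.inl a)) (w (Sum.inr ()))) :=
    h.not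
  have h2 : FDef K (fun v : α → A => ¬ ∃ u : A, ¬ P v u) :=
    (FDef.ex (P := fun v u => ¬ P v u) h1).not
  exact h2.congr fun v => by push Not; rfl

theorem TDef.comap {p : (α → A) → A} (hp : TDef K p) (g : α → β) :
    TDef K (fun w : β → A => p (fun a => w (g a))) := by
  obtain ⟨t, ht⟩ := hp
  exact ⟨t.relabel g, fun w => by simp [ht, Function.comp_def]⟩

end Pool.Agent.Q202.FA
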